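import Pool.Agent.Run7.h526.ZR.Crit

/-!
# Normality of tuples is decided by the exponential rate of one long matrix in the translates

A tuple `α` of `r` real numbers is normal to base `b` iff for every `ε > 0` there are arbitrarily wide
matrices `U` which have in no rational translate of `α` an upper density above `b ^ (-(1 - ε) r k)`,
where `k` is the width of `U`. Quantitatively, if a matrix `D` has in `α` a frequency which is off by
more than `τ` infinitely often, then for all large `k` and *all* matrices `U` of width `k` there is a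
translate of `α` by a vector with denominator `b ^ (k + 2) - 1` in which `U` has an upper density of at
least `b ^ (-(1 - c) r k)`, where `c = τ ^ 2 / (64 m r log b)` and `m` is the width of `D`. The conjecture
Q1 is therefore equivalent to a statement on the exponential rate of one matrix of each large width,
for instance of the zero matrices: in tuples of algebraic numbers which are independent over `ℚ` together
with `1` simultaneous runs of `k` zeros are not exponentially more frequent than they should be.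

Proof. By a bound of Chernoff type all but `b ^ ((1 - 2 c) r k)` of the blocks of length `k` contain every
matrix `D` with nearly the right frequency; if `D` is biased, the exceptional blocks have together a
positive upper density, so one of them stands, at the places in one class modulo `k + 2`, with an upper
density of at least `b ^ (-(1 - c) r k)`, and a rational vector with denominator `b ^ (k + 2) - 1` turns
this block, at the places of this class, into `U`. The converse is the theorem of Wall and the criterion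
of Weyl for boxes.
-/

set_option autoImplicit false

open Filter Topology

namespace Pool.Agent.Results.MP_c8ecb2_nt.ExponentialRateOfMatrices

/-- `A_b(D, N, α)`: the number of the `1 ≤ i ≤ N` at which the digit matrix `D` stands -/
noncomputable def A {b r m : ℕ} (α : Fin r → ℝ) (D : Fin r → Fin m → Fin b) (N : ℕ) : ℕ :=
  ((Finset.Icc 1 N).filter fun i : ℕ => ∀ j : Fin r, ∀ t : Fin m,
    Int.floor (α j * (b : ℝ) ^ (i + (t : ℕ))) % (b : ℤ) = (((D j t : ℕ)) : ℤ)).card

/-- the tuple `α` is normal to base `b` -/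
def Normal {r : ℕ} (b : ℕ) (α : Fin r → ℝ) : Prop :=
  ∀ m : ℕ, 1 ≤ m → ∀ D : Fin r → Fin m → Fin b,
    Tendsto (fun N : ℕ => (A α D N : ℝ) / (N : ℝ)) atTop (𝓝 (1 / (b : ℝ) ^ (m * r)))

lemma indep_add {r : ℕ} {α : Fin r → ℝ} (h : LinearIndependent ℚ (Matrix.vecCons (1 : ℝ) α))
    (ρ : Fin r → ℚ) : LinearIndependent ℚ (Matrix.vecCons (1 : ℝ) fun j => α j + ρ j) := by
  rw [Fintype.linearIndependent_iff] at h ⊢
  intro g hg
  have h1 := h (Matrix.vecCons (g 0 + ∑ j : Fin r, g j.succ * ρ j) fun j => g j.succ) (by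
    rw [Fin.sum_univ_succ] at hg ⊢
    simp only [Matrix.cons_val_zero, Matrix.cons_val_succ, Rat.smul_def, mul_one] at hg ⊢
    push_cast
    rw [← hg, add_assoc, ← Finset.sum_add_distrib]
    congr 1
    exact Finset.sum_congr rfl fun j _ => by ring)
  have h2 : ∀ j : Fin r, g j.succ = 0 := fun j => by simpa using h1 j.succ
  have h3 : g 0 = 0 := by
    have := h1 0
    simp only [Matrix.cons_val_zero, h2, zero_mul, Finset.sum_const_zero, add_zero] at this
    exact this
  intro i
  refine Fin.cases h3 h2 i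

/-- **(1)** `α` is normal iff for all `ε > 0` there are arbitrarily wide matrices `U` which stand in all
rational translates of `α`, up to all large `N`, at most `b ^ (-(1 - ε) r k) N` times, where `k` is the
width of `U`. **(2)** If the frequency of a matrix of width `m` in `α` is off by more than `τ` infinitely
often, then for all `k ≥ k0(b, r, m, τ)` and all matrices `U` of width `k` some translate by a vector with
denominator `b ^ (k + 2) - 1` contains `U` for infinitely many `N` at least `b ^ (-(1 - c) r k) N` times,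
where `c = τ ^ 2 / (64 m r log b)`. **(3)** The conjecture Q1 holds iff for all `b`, `r` and `ε > 0` there
are arbitrarily wide matrices `U` which stand in all tuples of `r` algebraic numbers which are
independent together with `1`, up to all large `N`, at most `b ^ (-(1 - ε) r k) N` times. **(4)** The
same for any class `C` of tuples which is closed under rational translations. -/
theorem result :
    (∀ b r : ℕ, 2 ≤ b → 1 ≤ r → ∀ α : Fin r → ℝ,
      (Normal b α ↔ ∀ ε : ℝ, 0 < ε → ∀ K : ℕ, ∃ k ≥ K, ∃ U : Fin r → Fin k → Fin b,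
        ∀ ρ : Fin r → ℚ, ∀ᶠ N : ℕ in atTop,
          (A (fun j => α j + ρ j) U N : ℝ) ≤ ((b : ℝ) ^ r) ^ (-((1 - ε) * k)) * N)) ∧
    (∀ b r m : ℕ, 2 ≤ b → 1 ≤ r → 1 ≤ m → ∀ τ : ℝ, 0 < τ → τ ≤ 1 →
      ∃ k0 : ℕ, ∀ (α : Fin r → ℝ) (D : Fin r → Fin m → Fin b),
        (∃ᶠ N : ℕ in atTop, τ * N < |(A α D N : ℝ) - N / (b : ℝ) ^ (m * r)|) →
        ∀ k ≥ k0, ∀ U : Fin r → Fin k → Fin b,
          ∃ p : Fin r → ℕ, (∀ j, p j < b ^ (k + 2) - 1) ∧ ∃ᶠ N : ℕ in atTop,
          ((b : ℝ) ^ r) ^ (-((1 - τ ^ 2 / (64 * m * (r * Real.log b))) * k)) * N ≤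
            A (fun j => α j + p j / ((b : ℝ) ^ (k + 2) - 1)) U N) ∧
    ((∀ b : ℕ, 2 ≤ b → ∀ r : ℕ, 1 ≤ r → ∀ α : Fin r → ℝ, (∀ j, IsAlgebraic ℚ (α j)) →
        LinearIndependent ℚ (Matrix.vecCons (1 : ℝ) α) → Normal b α) ↔
      ∀ b : ℕ, 2 ≤ b → ∀ r : ℕ, 1 ≤ r → ∀ ε : ℝ, 0 < ε → ∀ K : ℕ, ∃ k ≥ K,
        ∃ U : Fin r → Fin k → Fin b, ∀ α : Fin r → ℝ, (∀ j, IsAlgebraic ℚ (α j)) →
          LinearIndependent ℚ (Matrix.vecCons (1 : ℝ) α) → ∀ᶠ N : ℕ in atTop,
            (A α U N : ℝ) ≤ ((b : ℝ) ^ r) ^ (-((1 - ε) * k)) * N) ∧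
    (∀ b r : ℕ, 2 ≤ b → 1 ≤ r → ∀ C : Set (Fin r → ℝ),
      (∀ α ∈ C, ∀ ρ : Fin r → ℚ, (fun j => α j + ρ j) ∈ C) →
      ((∀ α ∈ C, Normal b α) ↔ ∀ ε : ℝ, 0 < ε → ∀ K : ℕ, ∃ k ≥ K,
        ∃ U : Fin r → Fin k → Fin b, ∀ α ∈ C, ∀ᶠ N : ℕ in atTop,
          (A α U N : ℝ) ≤ ((b : ℝ) ^ r) ^ (-((1 - ε) * k)) * N)) := by
  refine ⟨fun b r hb hr α => Pool.Agent.Run7.h526.ZR.joint_crit hb hr α,
    fun b r m hb hr hm τ hτ hτ1 => Pool.Agent.Run7.h526.ZR.joint_gap hb hr hm hτ hτ1, ?_,
    fun b r hb hr C hC => Pool.Agent.Run7.h526.ZR.class_crit hb hr C hC⟩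
  have key := fun (b : ℕ) (hb : 2 ≤ b) (r : ℕ) (hr : 1 ≤ r) =>
    Pool.Agent.Run7.h526.ZR.class_crit (b := b) (r := r) hb hr
      {α | (∀ j, IsAlgebraic ℚ (α j)) ∧ LinearIndependent ℚ (Matrix.vecCons (1 : ℝ) α)}
      (fun α hα ρ => ⟨fun j => (hα.1 j).add (isAlgebraic_algebraMap (ρ j)), indep_add hα.2 ρ⟩)
  constructor
  · intro h b hb r hr ε hε K
    obtain ⟨k, hk, U, h1⟩ := (key b hb r hr).1 (fun α hα => h b hb r hr α hα.1 hα.2) ε hε K
    exact ⟨k, hk, U, fun α h2 h3 => h1 α ⟨h2, h3⟩⟩
  · intro h b hb r hr α h2 h3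
    refine (key b hb r hr).2 (fun ε hε K => ?_) α ⟨h2, h3⟩
    obtain ⟨k, hk, U, h1⟩ := h b hb r hr ε hε K
    exact ⟨k, hk, U, fun α hα => h1 α hα.1 hα.2⟩

end Pool.Agent.Results.MP_c8ecb2_nt.ExponentialRateOfMatrices
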