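import Pool.Agent.Run7.h526.ZR.Bridge

/-!
# Return times of digit matrices: a gap

For a tuple `α` of `r` real numbers consider the places `n` for which the digit matrix of width `k`
behind the `n`-th digits stands again at most `b ^ ((1 - ε) r k)` places later. If `α` is normal to base
`b`, these places have an upper density of at most `2 b ^ (-ε r k)`. If `α` is not normal, then for
some `c > 0` and *all* large `k` the places with a return within `b ^ ((1 - c) r k)` places have an upper
density of at least `c`; if a matrix of width `m` is off by more than `τ` infinitely often, one can take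
`c = τ ^ 2 / (64 m r log b)` in the exponent and `τ / 8` for the density. So a tuple is normal iff for every
`ε > 0` there are arbitrarily large `k` such that all but a proportion of `ε` of its digit matrices of width
`k` do not return within `b ^ ((1 - ε) r k)` places, and Q1 is the statement that this holds for the tuples
of algebraic numbers which are independent over `ℚ` together with `1`.

Proof. By a bound of Chernoff type there are at most `b ^ ((1 - 2 c) r k)` matrices of width `k` in which the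
frequency of the given matrix is off by more than `τ / 2`, and they stand at a proportion of at least
`τ / 4` of the first `N` places, for infinitely many `N`. In each window of length `b ^ ((1 - c) r k)` each
of them has at most one occurrence which does not return within the window. Conversely, the frequency of
the return after exactly `j ≥ 1` places is exactly `b ^ (-r k)` for a normal tuple.
-/

set_option autoImplicit false

open Filter Topology

namespace Pool.Agent.Results.MP_c8ecb2_nt.JointReturnTimes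

/-- `A_b(D, N, α)`: the number of the `1 ≤ i ≤ N` at which the digit matrix `D` stands -/
noncomputable def A {b r m : ℕ} (α : Fin r → ℝ) (D : Fin r → Fin m → Fin b) (N : ℕ) : ℕ :=
  ((Finset.Icc 1 N).filter fun i : ℕ => ∀ j : Fin r, ∀ t : Fin m,
    Int.floor (α j * (b : ℝ) ^ (i + (t : ℕ))) % (b : ℤ) = (((D j t : ℕ)) : ℤ)).card

/-- the tuple `α` is normal to base `b` -/
def Normal {r : ℕ} (b : ℕ) (α : Fin r → ℝ) : Prop :=
  ∀ m : ℕ, 1 ≤ m → ∀ D : Fin r → Fin m → Fin b,
    Tendsto (fun N : ℕ => (A α D N : ℝ) / (N : ℝ)) atTop (𝓝 (1 / (b : ℝ) ^ (m * r)))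

/-- the number of the `n < N` such that the matrix of the `k` digits after the `n`-th ones stands again
at most `L` places later -/
noncomputable def returns {r : ℕ} (b : ℕ) (α : Fin r → ℝ) (k : ℕ) (L : ℝ) (N : ℕ) : ℕ := by
  classical
  exact ((Finset.range N).filter fun n : ℕ => ∃ j : ℕ, 1 ≤ j ∧ (j : ℝ) ≤ L ∧ ∀ i : Fin r, ∀ t < k,
    ⌊α i * (b : ℝ) ^ (n + 1 + t)⌋ % (b : ℤ) = ⌊α i * (b : ℝ) ^ (n + j + 1 + t)⌋ % (b : ℤ)).card

/-- **(1)** If `α` is normal, at most `2 b ^ (-ε r k) N` of the first `N` matrices of width `k` return within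
`b ^ ((1 - ε) r k)` places, for all large `N`. **(2)** If the frequency of a matrix of width `m` is off by
more than `τ` infinitely often, then for all `k ≥ k0(b, r, m, τ)` and infinitely many `N` at least `τ N / 8`
of them return within `b ^ ((1 - c) r k)` places, `c = τ ^ 2 / (64 m r log b)`. **(3)** `α` is normal iff for
all `ε > 0` there are arbitrarily large `k` such that at most `ε N` of them return within
`b ^ ((1 - ε) r k)` places, for all large `N`. **(4)** The conjecture Q1 holds iff all tuples of algebraic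
numbers which are independent together with `1` have this property in all bases. -/
theorem result :
    (∀ b r : ℕ, 2 ≤ b → 1 ≤ r → ∀ α : Fin r → ℝ, Normal b α → ∀ ε : ℝ, 0 < ε → ∀ k : ℕ,
      ∀ᶠ N : ℕ in atTop, (returns b α k (((b : ℝ) ^ r) ^ ((1 - ε) * k)) N : ℝ) ≤
        2 * ((b : ℝ) ^ r) ^ (-(ε * k)) * N) ∧
    (∀ b r m : ℕ, 2 ≤ b → 1 ≤ r → 1 ≤ m → ∀ τ : ℝ, 0 < τ → τ ≤ 1 →
      ∃ k0 : ℕ, ∀ (α : Fin r → ℝ) (D : Fin r → Fin m → Fin b),
        (∃ᶠ N : ℕ in atTop, τ * N < |(A α D N : ℝ) - N / (b : ℝ) ^ (m * r)|) →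
        ∀ k ≥ k0, ∃ᶠ N : ℕ in atTop, τ / 8 * N ≤
          returns b α k (((b : ℝ) ^ r) ^ ((1 - τ ^ 2 / (64 * m * (r * Real.log b))) * k)) N) ∧
    (∀ b r : ℕ, 2 ≤ b → 1 ≤ r → ∀ α : Fin r → ℝ,
      (Normal b α ↔ ∀ ε : ℝ, 0 < ε → ∀ K : ℕ, ∃ k ≥ K, ∀ᶠ N : ℕ in atTop,
        (returns b α k (((b : ℝ) ^ r) ^ ((1 - ε) * k)) N : ℝ) ≤ ε * N)) ∧
    ((∀ b : ℕ, 2 ≤ b → ∀ r : ℕ, 1 ≤ r → ∀ α : Fin r → ℝ, (∀ j, IsAlgebraic ℚ (α j)) →
        LinearIndependent ℚ (Matrix.vecCons (1 : ℝ) α) → Normal b α) ↔
      ∀ b : ℕ, 2 ≤ b → ∀ r : ℕ, 1 ≤ r → ∀ α : Fin r → ℝ, (∀ j, IsAlgebraic ℚ (α j)) →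
        LinearIndependent ℚ (Matrix.vecCons (1 : ℝ) α) →
        ∀ ε : ℝ, 0 < ε → ∀ K : ℕ, ∃ k ≥ K, ∀ᶠ N : ℕ in atTop,
          (returns b α k (((b : ℝ) ^ r) ^ ((1 - ε) * k)) N : ℝ) ≤ ε * N) := by
  refine ⟨fun b r hb hr α h ε hε k => Pool.Agent.Run7.h526.ZR.soon_normal hb hr h hε k,
    fun b r m hb hr hm τ hτ hτ1 => Pool.Agent.Run7.h526.ZR.soon_gap hb hr hm hτ hτ1,
    fun b r hb hr α => Pool.Agent.Run7.h526.ZR.soon_crit hb hr α, ?_⟩
  constructor
  · intro h b hb r hr α h1 h2
    exact (Pool.Agent.Run7.h526.ZR.soon_crit hb hr α).1 (h b hb r hr α h1 h2)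
  · intro h b hb r hr α h1 h2
    exact (Pool.Agent.Run7.h526.ZR.soon_crit hb hr α).2 (h b hb r hr α h1 h2)

end Pool.Agent.Results.MP_c8ecb2_nt.JointReturnTimes
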