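import Pool.Agent.Run7.h710.TR.E
import Pool.Agent.R501.MT4

/-!
# Joint digits of the multiples of an independent tuple of algebraic numbers by the integers written by a transducer

Let `α_1, …, α_r` be real algebraic numbers such that `1, α_1, …, α_r` are linearly independent over `ℚ`. The multipliers are
the integers `T(v)`, where `T` is a transducer which reads the digits of `v` in base `a` and writes the digits of `T(v)` in
base `g` (definitions in `Pool.Agent.Run7.h710.TR.Defs`). These integers may be a very thin set. Nevertheless for almost all
`v < a ^ k` the digit matrices of `(T(v) α_1 + y_1, …, T(v) α_r + y_r)` in arbitrary bases stand with the right frequencies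
in all the windows inside the first `A k` digits, for every `A`.

Method: if two words of `L` digits lead from the same state to the same state and different words are written, then the two
parts of the exponential sum over the integers `T(v)` which belong to these words cancel in part at the places where the
frequency has a digit which is not extremal. From the starting files: the Diophantine input (`Pool.Agent.Y951.TU.Dioph`,
which rests on the subspace theorem), the comparison of measures on the cube, the moments of word counts, and their
combination `Pool.Agent.R501.MT.decays_good`.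

Examples: the bitwise conjunction or disjunction of `v` and `m v` (the carries are the states); the integer whose digit `i`
is `f(x_i, x_{i+1}, …, x_{i+r})`, where `x_i` are the digits of `v` and `f` is not constant (one-sided cellular automata).
-/

set_option autoImplicit false

namespace Pool.Agent.Results.MP_c8ecb2_nt.TransducerMultiples

open Finset Pool.Agent.Run7.h710.TR

/-- the word of the `l` digits in base `b` of `x` which follow the first `n` digits after the point, read as an integer
between `0` and `b ^ l - 1` -/
noncomputable def word (b l n : ℕ) (x : ℝ) : ℕ := ⌊(b : ℝ) ^ l * Int.fract ((b : ℝ) ^ n * x)⌋₊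

/-- the number of the `i < N` such that for every `j` the word of `l` digits in base `b j` of `x j` which follows the
first `s j + u + i` digits is `D j` -/
noncomputable def occ {r : ℕ} (b : Fin r → ℕ) (l : ℕ) (D s : Fin r → ℕ) (u N : ℕ) (x : Fin r → ℝ) : ℕ :=
  ((range N).filter (fun i => ∀ j, word (b j) l (s j + u + i) (x j) = D j)).card

/-- every tuple of words of at most `w` digits stands with the right frequency, up to an error of `T` places, in all the
windows of places `s j + u, …, s j + u + N - 1` with `u + N ≤ M` -/
def NearNormal {r : ℕ} (b : Fin r → ℕ) (w : ℕ) (T M : ℝ) (s : Fin r → ℕ) (x : Fin r → ℝ) : Prop :=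
  ∀ (l : ℕ) (D : Fin r → ℕ) (u N : ℕ), 1 ≤ l → l ≤ w → (∀ j, D j < b j ^ l) → (u : ℝ) + N ≤ M →
    |(occ b l D s u N x : ℝ) - N / ∏ j, (b j : ℝ) ^ l| ≤ T

lemma near_of_good {r : ℕ} {b : Fin r → ℕ} {w : ℕ} {T M : ℝ} {s : Fin r → ℕ} {x : Fin r → ℝ}
    (h : Pool.Agent.R501.MT.GoodV b w T M s x) : NearNormal b w T M s x := by
  intro l D u N hl hlw hD huN
  have h1 := h l D u N hl hlw hD huN
  have h2 : (∏ j, (b j : ℝ) ^ l) = ((∏ j, b j : ℕ) : ℝ) ^ l := by
    rw [Finset.prod_pow]
    push_cast
    rfl
  have h3 : occ b l D s u N x =
      ((range N).filter (fun i => Pool.Agent.Y951.TU.tw b l (fun j => s j + (u + i)) x = D)).card := by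
    unfold occ
    congr 1
    apply filter_congr
    intro i _
    rw [funext_iff]
    simp only [add_assoc]
    rfl
  rw [h2, h3]
  exact h1

open Classical in
/-- Let `α_1, …, α_r` be real algebraic numbers such that every nontrivial integral combination of them is irrational
(that is, `1, α_1, …, α_r` are linearly independent over `ℚ`), and let `b j ≥ 2` be bases. Let `a`, `g ≥ 2` be other bases,
which may be different from all the `b j`, and let `L ≥ 1`, the integer `κ ≠ 0`, `w`, `A` and `ε > 0` be given. For all large
`k`, let an arbitrary transducer be given which reads digits `< a` and writes digits `< g` (with finitely or infinitely many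
states) such that from every state two words of `L` digits lead to the same state, while different words are written; let it
begin in an arbitrary state `z` and read from the left or from the right; `T(v)` is the integer which is written when `v` is
read (`k` must be large in terms of the fixed numbers only). Let `c` be an arbitrary integer. For all real `y` and all
starting places `s j ≤ A k`: for all the integers `v < a ^ k` but at most `ε a ^ k`, the tuple
`((c + κ T(v)) α_j + y_j)` has all its tuples of words of at most `w` digits with the right frequencies, up to an error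
`ε k`, in all the windows of places `s j + u, …, s j + u + N - 1` with `u + N ≤ A k`. -/
theorem result (r : ℕ) (α : Fin r → ℝ) (halg : ∀ j, IsAlgebraic ℚ (α j))
    (hind : ∀ c : Fin r → ℤ, c ≠ 0 → Irrational (∑ j, (c j : ℝ) * α j)) (b : Fin r → ℕ) (hb : ∀ j, 2 ≤ b j)
    (a g L : ℕ) (hg : 2 ≤ g) (hL : 1 ≤ L) (κ : ℤ) (hκ : κ ≠ 0) (w : ℕ) (A ε : ℝ) (hA : 0 < A) (hε : 0 < ε) :
    ∃ k₀ : ℕ, ∀ k : ℕ, k₀ ≤ k → ∀ (S : Type) (δ : S → ℕ → S) (o : S → ℕ → ℕ), Transducer a g L δ o →
      ∀ (left : Bool) (z : S) (c : ℤ) (y : Fin r → ℝ) (s : Fin r → ℕ), (∀ j, (s j : ℝ) ≤ A * k) →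
      (((range (a ^ k)).filter fun v => ¬ NearNormal b w (ε * k) (A * k) s
        (fun j => ((c + κ * (image a g δ o left k z v : ℕ) : ℤ) : ℝ) * α j + y j)).card : ℝ) ≤ ε * (a : ℝ) ^ k := by
  obtain ⟨γ, hγ0, hγ1, hdec⟩ := tr_decays a g L hg hL
  have hκR : (κ : ℝ) ≠ 0 := by exact_mod_cast hκ
  obtain ⟨k₀, H⟩ := Pool.Agent.R501.MT.decays_good (fun j => (κ : ℝ) * α j)
    (fun j => (isAlgebraic_int κ).mul (halg j))
    (fun c hc => by
      have h1 := hind (fun j => κ * c j) (fun h0 => hc (by
        funext j
        have h2 := congrFun h0 j
        simp only [Pi.zero_apply] at h2 ⊢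
        exact (mul_eq_zero.1 h2).resolve_left hκ))
      have e1 : ∑ j, ((κ * c j : ℤ) : ℝ) * α j = ∑ j, (c j : ℝ) * ((κ : ℝ) * α j) := by
        apply sum_congr rfl
        intro j _
        push_cast
        ring
      rw [← e1]
      exact h1)
    b (fun j => by have := hb j; omega) g hg w A ε hA hε (g.factorial * (g ^ L).factorial) (L + 1)
    (Nat.mul_pos (Nat.factorial_pos _) (Nat.factorial_pos _)) γ hγ0 hγ1
  refine ⟨k₀, fun k hk S δ o hT left z c y s hs => ?_⟩
  have ha := two_le hT z
  have h1 := H k hk (fun j => (c : ℝ) * α j + y j) s hs ℕ (range (a ^ k)) (wt a k) (Pool.Agent.Run7.h710.TR.val a g δ o left k z 0 1)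
    (hdec S δ o hT left z k 1 0) ((range (a ^ k)).filter fun v => ¬ NearNormal b w (ε * k) (A * k) s
        (fun j => ((c + κ * (image a g δ o left k z v : ℕ) : ℤ) : ℝ) * α j + y j)) (filter_subset _ _) (by
    intro v hv hgood
    apply (mem_filter.1 hv).2
    apply near_of_good
    have e1 : (fun j => ((c + κ * (image a g δ o left k z v : ℕ) : ℤ) : ℝ) * α j + y j) =
        fun j => ((Pool.Agent.Run7.h710.TR.val a g δ o left k z 0 1 v : ℤ) : ℝ) * ((κ : ℝ) * α j) + ((c : ℝ) * α j + y j) := by
      funext j
      unfold Pool.Agent.Run7.h710.TR.val
      push_cast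
      ring
    rw [e1]
    exact hgood)
  exact card_of_sum (by omega) h1

end Pool.Agent.Results.MP_c8ecb2_nt.TransducerMultiples
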