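import Pool.Agent.Run7.h672.CC.H
import Pool.Agent.R501.MT4

/-!
# Joint digits of the multiples of an independent tuple of algebraic numbers by integers written by independent random words

Let `α_1, …, α_r` be real algebraic numbers such that `1, α_1, …, α_r` are linearly independent over `ℚ`. Let `m` be the
integer whose digits in base `g` are written by independent random words, for any law of the words (any language, finite or
infinite) with an exponential moment for the lengths, for which the lengths have no common divisor and two words do not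
commute. These integers may be a very thin set (their entropy may be arbitrarily small), and their digits may be completely
determined by the preceding ones at most of the places. Nevertheless for almost all of them the digit matrices of
`(m α_1 + y_1, …, m α_r + y_r)` in arbitrary bases stand with the right frequencies in all the windows inside the first
`A k` digits, for every `A`.

The definitions `len`, `Words`, `cat`, `noRest`, `cutWord`, `WordLaw` are in `Pool.Agent.Run7.h672.CC.Defs`.

From the starting files: the Diophantine input `Pool.Agent.Y951.TU.Dioph` (which rests on the subspace theorem), the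
comparison of measures on the cube `Pool.Agent.Y951.TU.Test`, the moments of word counts `Pool.Agent.Y933` and their
combination for laws with small characteristic functions, `Pool.Agent.R501.MT1` to `MT4`. New is the bound for the
characteristic functions of the integers written by random words, `Pool.Agent.Run7.h672.CC`.
-/

set_option autoImplicit false

namespace Pool.Agent.Results.MP_c8ecb2_nt.WordMultiples

open Finset
open Pool.Agent.Run7.h672.CC

/-- the word of the `l` digits in base `b` of `x` which follow the first `n` digits after the point, read as an integer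
between `0` and `b ^ l - 1` -/
noncomputable def word (b l n : ℕ) (x : ℝ) : ℕ := ⌊(b : ℝ) ^ l * Int.fract ((b : ℝ) ^ n * x)⌋₊

/-- the number of the `i < N` such that for every `j` the word of `l` digits in base `b j` of `x j` which follows the
first `s j + u + i` digits is `D j` -/
noncomputable def occ {r : ℕ} (b : Fin r → ℕ) (l : ℕ) (D s : Fin r → ℕ) (u N : ℕ) (x : Fin r → ℝ) : ℕ :=
  ((range N).filter (fun i => ∀ j, word (b j) l (s j + u + i) (x j) = D j)).card

/-- every tuple of words of at most `w` digits stands with the right frequency, up to an error of `T` places, in all the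
windows of places `s j + u, …, s j + u + N - 1` with `u + N ≤ L` -/
def NearNormal {r : ℕ} (b : Fin r → ℕ) (w : ℕ) (T L : ℝ) (s : Fin r → ℕ) (x : Fin r → ℝ) : Prop :=
  ∀ (l : ℕ) (D : Fin r → ℕ) (u N : ℕ), 1 ≤ l → l ≤ w → (∀ j, D j < b j ^ l) → (u : ℝ) + N ≤ L →
    |(occ b l D s u N x : ℝ) - N / ∏ j, (b j : ℝ) ^ l| ≤ T

lemma near_of_good {r : ℕ} {b : Fin r → ℕ} {w : ℕ} {T L : ℝ} {s : Fin r → ℕ} {x : Fin r → ℝ}
    (h : Pool.Agent.R501.MT.GoodV b w T L s x) : NearNormal b w T L s x := by
  intro l D u N hl hlw hD huN
  have h1 := h l D u N hl hlw hD huN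
  have h2 : (∏ j, (b j : ℝ) ^ l) = ((∏ j, b j : ℕ) : ℝ) ^ l := by
    rw [Finset.prod_pow]
    push_cast
    rfl
  have h3 : occ b l D s u N x =
      ((range N).filter (fun i => Pool.Agent.Y951.TU.tw b l (fun j => s j + (u + i)) x = D)).card := by
    unfold occ
    congr 1
    apply filter_congr
    intro i _
    rw [funext_iff]
    simp only [add_assoc]
    rfl
  rw [h2, h3]
  exact h1

open Classical in
/-- Let `α_1, …, α_r` be real algebraic numbers such that every nontrivial integral combination of them is irrational
(that is, `1, α_1, …, α_r` are linearly independent over `ℚ`), and let `b j ≥ 2` be bases. Let `g` be another base,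
which may be different from all the `b j`, let `W` be the law of a random word in base `g` (`Words g W`), and let `κ ≠ 0`, `c`,
`w`, `A > 0`, `ε > 0` be given. For all large `k`, for the random integer `v < g ^ k` whose `k` digits are written by
independent random words with the law `W`, conditioned on the total length `k`, or cut after `k` digits
(`WordLaw g W k p`), for all real `y` and all starting places `s j ≤ A k`: with a probability of at least `1 - ε`, the
tuple `((c + κ v) α_j + y_j)` has all its tuples of words of at most `w` digits with the right frequencies, up to an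
error `ε k`, in all the windows of places `s j + u, …, s j + u + N - 1` with `u + N ≤ A k`. -/
theorem result (r : ℕ) (α : Fin r → ℝ) (halg : ∀ j, IsAlgebraic ℚ (α j))
    (hind : ∀ c : Fin r → ℤ, c ≠ 0 → Irrational (∑ j, (c j : ℝ) * α j)) (b : Fin r → ℕ) (hb : ∀ j, 2 ≤ b j)
    (g : ℕ) (W : ℕ → ℕ → ℝ) (hW : Words g W) (κ : ℤ) (hκ : κ ≠ 0) (w : ℕ) (A ε : ℝ) (hA : 0 < A) (hε : 0 < ε) :
    ∃ k₀ : ℕ, ∀ k : ℕ, k₀ ≤ k → ∀ p : ℕ → ℝ, WordLaw g W k p →
      ∀ (c : ℤ) (y : Fin r → ℝ) (s : Fin r → ℕ), (∀ j, (s j : ℝ) ≤ A * k) →
      ∑ v ∈ range (g ^ k), (if NearNormal b w (ε * k) (A * k) s (fun j => ((c + κ * v : ℤ) : ℝ) * α j + y j) then 0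
        else p v) ≤ ε := by
  have hg := hW.two
  obtain ⟨F, A', γ, hF, hγ0, hγ1, hdec⟩ := word_decays hW
  have hκR : (κ : ℝ) ≠ 0 := by exact_mod_cast hκ
  obtain ⟨k₀, h⟩ := Pool.Agent.R501.MT.decays_good (fun j => (κ : ℝ) * α j) (fun j => by
    have h1 : IsAlgebraic ℚ ((κ : ℝ)) := isAlgebraic_int κ
    exact h1.mul (halg j)) (fun c hc => by
    have h1 : Irrational (((κ : ℤ) : ℝ) * ∑ j, (c j : ℝ) * α j) := (hind c hc).intCast_mul hκ
    have h2 : ∑ j, (c j : ℝ) * ((κ : ℝ) * α j) = ((κ : ℤ) : ℝ) * ∑ j, (c j : ℝ) * α j := by
      rw [mul_sum]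
      apply sum_congr rfl
      intro j _
      ring
    rw [h2]
    exact h1) b (fun j => by have := hb j; omega) g hg w A ε hA hε F A' hF γ hγ0 hγ1
  refine ⟨k₀, fun k hk p hp c y s hs => ?_⟩
  have h1 := h k hk (fun j => (c : ℝ) * α j + y j) s hs ℕ (range (g ^ k)) p (fun v => 0 + 1 * (v : ℕ)) (hdec k p hp 1 0)
    ((range (g ^ k)).filter (fun v : ℕ => ¬ NearNormal b w (ε * k) (A * k) s (fun j => ((c + κ * v : ℤ) : ℝ) * α j + y j)))
    (filter_subset _ _) (by
      intro v hv hcon
      rw [mem_filter] at hv
      apply hv.2
      apply near_of_good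
      have e1 : (fun j => ((c + κ * v : ℤ) : ℝ) * α j + y j) =
          fun j => ((0 + 1 * ((v : ℕ) : ℤ) : ℤ) : ℝ) * ((κ : ℝ) * α j) + ((c : ℝ) * α j + y j) := by
        funext j
        push_cast
        ring
      rw [e1]
      exact hcon)
  refine le_trans (le_of_eq ?_) h1
  rw [sum_filter]
  apply sum_congr rfl
  intro v _
  by_cases hq : NearNormal b w (ε * k) (A * k) s (fun j => ((c + κ * v : ℤ) : ℝ) * α j + y j)
  · rw [if_pos hq, if_neg (not_not.2 hq)]
  · rw [if_neg hq, if_pos hq]

end Pool.Agent.Results.MP_c8ecb2_nt.WordMultiples
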